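import Pool.Agent.RGE.Int
import Pool.Agent.ZShort.LamNum

/-!
# The gain of the resonators with constant coefficients
-/

namespace Pool.Agent.RGE

open MeasureTheory Real Set Pool.Agent.ZGap.Res

lemma sinc_ge {u : ℝ} (hu : 0 ≤ u) : 1 - u ^ 2 / 6 ≤ sinc u := by
  rcases eq_or_lt_of_le hu with h | h
  · rw [← h]; simp
  · have h1 := (alt_bounds 1).1 u hu
    have h2 : sT (1 + 1) u = u - u ^ 3 / 6 := by
      unfold sT
      simp only [Finset.sum_range_succ, Finset.sum_range_zero, Nat.factorial]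
      push_cast
      ring
    rw [h2] at h1
    rw [sinc_of_ne_zero h.ne', le_div_iff₀ h]
    norm_num at h1
    nlinarith

lemma sinc_nonneg' {u : ℝ} (hu : 0 ≤ u) (hu1 : u ≤ π) : 0 ≤ sinc u := by
  rcases eq_or_lt_of_le hu with h | h
  · rw [← h]; simp
  · rw [sinc_of_ne_zero h.ne']
    exact div_nonneg (Real.sin_nonneg_of_nonneg_of_le_pi hu hu1) hu

/-- The integral of the kernel against the profile. -/
noncomputable def JJ (x : ℝ) : ℝ :=
  ∫ t in (0:ℝ)..1, π * x / 2 * sinc (π * x / 2 * t) * (1 - t) ^ x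

lemma cont_JJ {x : ℝ} (hx : 0 ≤ x) :
    Continuous fun t : ℝ => π * x / 2 * sinc (π * x / 2 * t) * (1 - t) ^ x :=
  ((continuous_sinc.comp (by fun_prop : Continuous fun t : ℝ => π * x / 2 * t)).const_mul _).mul
    (cont_one_sub hx)

lemma JJ_mid {x : ℝ} (hx : 1 ≤ x) (hx2 : x ≤ 2) : π / 4 - π ^ 3 / 576 ≤ JJ x := by
  have hpi := Real.pi_pos
  have hx0 : 0 < x := by linarith
  have hc := cont_JJ hx0.le
  have h1x : 0 ≤ 1 / x := by positivity
  have h1x1 : 1 / x ≤ 1 := by rw [div_le_one hx0]; exact hx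
  unfold JJ
  rw [← intervalIntegral.integral_add_adjacent_intervals (hc.intervalIntegrable 0 (1 / x))
    (hc.intervalIntegrable (1 / x) 1)]
  have a1 : 0 ≤ ∫ t in (1 / x)..1, π * x / 2 * sinc (π * x / 2 * t) * (1 - t) ^ x := by
    apply intervalIntegral.integral_nonneg h1x1
    intro t ht
    have h0 : 0 ≤ t := h1x.trans ht.1
    have h2 : 0 ≤ sinc (π * x / 2 * t) := by
      apply sinc_nonneg' (by positivity)
      calc π * x / 2 * t ≤ π * 2 / 2 * 1 := by gcongr; exact ht.2
        _ = π := by ring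
    have h3 : 0 ≤ (1 - t) ^ x := Real.rpow_nonneg (by linarith [ht.2]) x
    positivity
  have a2 : ∫ t in (0:ℝ)..(1 / x), π * x / 2 * (1 - (π * x / 2 * t) ^ 2 / 6) * (1 - x * t) ≤
      ∫ t in (0:ℝ)..(1 / x), π * x / 2 * sinc (π * x / 2 * t) * (1 - t) ^ x := by
    apply intervalIntegral.integral_mono_on h1x
      (Continuous.intervalIntegrable (by fun_prop) _ _) (hc.intervalIntegrable _ _)
    intro t ht
    have hxt : x * t ≤ 1 := by
      have := ht.2
      rw [le_div_iff₀ hx0] at this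
      linarith
    have hxt0 : 0 ≤ x * t := mul_nonneg hx0.le ht.1
    have ht1 : t ≤ 1 := ht.2.trans h1x1
    have h2 : 0 ≤ sinc (π * x / 2 * t) := by
      apply sinc_nonneg' (mul_nonneg (by positivity) ht.1)
      nlinarith
    have h3 := sinc_ge (u := π * x / 2 * t) (mul_nonneg (by positivity) ht.1)
    have h4 : 1 - x * t ≤ (1 - t) ^ x := by
      have := one_add_mul_self_le_rpow_one_add (s := -t) (by linarith) hx
      have e1 : (1 + -t : ℝ) = 1 - t := by ring
      rw [e1] at this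
      linarith
    calc π * x / 2 * (1 - (π * x / 2 * t) ^ 2 / 6) * (1 - x * t)
        ≤ π * x / 2 * sinc (π * x / 2 * t) * (1 - x * t) := by
          apply mul_le_mul_of_nonneg_right _ (by linarith)
          exact mul_le_mul_of_nonneg_left h3 (by positivity)
      _ ≤ _ := mul_le_mul_of_nonneg_left h4 (by positivity)
  have a3 : ∫ t in (0:ℝ)..(1 / x), π * x / 2 * (1 - (π * x / 2 * t) ^ 2 / 6) * (1 - x * t) =
      π / 4 - π ^ 3 / 576 := by
    have hd : ∀ t ∈ uIcc (0:ℝ) (1 / x), HasDerivAt (fun t : ℝ => π * x / 2 * (t - x * t ^ 2 / 2) -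
        (π * x / 2) ^ 3 / 6 * (t ^ 3 / 3 - x * t ^ 4 / 4))
        (π * x / 2 * (1 - (π * x / 2 * t) ^ 2 / 6) * (1 - x * t)) t := by
      intro t _
      have d1 := hasDerivAt_id t
      have d2 := hasDerivAt_pow 2 t
      have d3 := hasDerivAt_pow 3 t
      have d4 := hasDerivAt_pow 4 t
      have d5 := ((d1.sub ((d2.const_mul x).div_const 2)).const_mul (π * x / 2)).sub
        (((d3.div_const 3).sub ((d4.const_mul x).div_const 4)).const_mul ((π * x / 2) ^ 3 / 6))
      refine (d5.congr_deriv ?_)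
      push_cast
      ring
    rw [intervalIntegral.integral_eq_sub_of_hasDerivAt hd
      (Continuous.intervalIntegrable (by fun_prop) _ _)]
    field_simp
    ring
  linarith

lemma exp_neg_two : Real.exp (-2) ≤ 0.1354 := by
  have h1 := Real.exp_neg_one_lt_d9
  have h2 : Real.exp (-2) = Real.exp (-1) ^ 2 := by
    rw [← Real.exp_nat_mul]; norm_num
  rw [h2]
  have h3 : 0 < Real.exp (-1) := Real.exp_pos _
  nlinarith

lemma JJ_big {x : ℝ} (hx : 2 ≤ x) : π / 3 - π ^ 3 / 180 - 0.0677 ≤ JJ x := by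
  have hpi := Real.pi_pos
  have hx0 : 0 < x := by linarith
  have hc := cont_JJ hx0.le
  have h1x : 0 ≤ 2 / x := by positivity
  have h1x1 : 2 / x ≤ 1 := by rw [div_le_one hx0]; exact hx
  unfold JJ
  rw [← intervalIntegral.integral_add_adjacent_intervals (hc.intervalIntegrable 0 (2 / x))
    (hc.intervalIntegrable (2 / x) 1)]
  have a1 : -0.0677 ≤ ∫ t in (2 / x)..1, π * x / 2 * sinc (π * x / 2 * t) * (1 - t) ^ x := by
    have b1 : ∫ t in (2 / x)..1, -(x / 2 * Real.exp (-(x * t))) ≤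
        ∫ t in (2 / x)..1, π * x / 2 * sinc (π * x / 2 * t) * (1 - t) ^ x := by
      apply intervalIntegral.integral_mono_on h1x1
        (Continuous.intervalIntegrable (by fun_prop) _ _) (hc.intervalIntegrable _ _)
      intro t ht
      have h2x : 0 < 2 / x := by positivity
      have ht0 : 0 < t := h2x.trans_le ht.1
      have hxt : 2 ≤ x * t := by
        have := ht.1
        rw [div_le_iff₀ hx0] at this
        linarith
      have h2 : π * x / 2 * sinc (π * x / 2 * t) = Real.sin (π * x / 2 * t) / t := by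
        rw [sinc_of_ne_zero (by positivity)]
        field_simp
      have h3 : -(x / 2) ≤ Real.sin (π * x / 2 * t) / t := by
        rw [le_div_iff₀ ht0]
        have := Real.neg_one_le_sin (π * x / 2 * t)
        nlinarith
      have h4 : 0 ≤ (1 - t) ^ x := Real.rpow_nonneg (by linarith [ht.2]) x
      have h5 : (1 - t) ^ x ≤ Real.exp (-(x * t)) := by
        have h6 : 1 - t ≤ Real.exp (-t) := by
          have := Real.add_one_le_exp (-t)
          linarith
        calc (1 - t) ^ x ≤ (Real.exp (-t)) ^ x :=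
              Real.rpow_le_rpow (by linarith [ht.2]) h6 hx0.le
          _ = Real.exp (-(x * t)) := by
              rw [← Real.exp_mul]
              congr 1
              ring
      rw [h2]
      calc -(x / 2 * Real.exp (-(x * t))) ≤ -(x / 2 * (1 - t) ^ x) := by
            have := mul_le_mul_of_nonneg_left h5 (by positivity : 0 ≤ x / 2)
            linarith
        _ = -(x / 2) * (1 - t) ^ x := by ring
        _ ≤ _ := mul_le_mul_of_nonneg_right h3 h4
    have b2 : ∫ t in (2 / x)..1, -(x / 2 * Real.exp (-(x * t))) =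
        Real.exp (-x) / 2 - Real.exp (-2) / 2 := by
      have hd : ∀ t ∈ uIcc (2 / x) (1:ℝ), HasDerivAt (fun t : ℝ => Real.exp (-(x * t)) / 2)
          (-(x / 2 * Real.exp (-(x * t)))) t := by
        intro t _
        have d1 : HasDerivAt (fun t : ℝ => -(x * t)) (-x) t :=
          ((hasDerivAt_id t).const_mul x).neg.congr_deriv (by simp)
        refine (d1.exp.div_const 2).congr_deriv ?_
        ring
      rw [intervalIntegral.integral_eq_sub_of_hasDerivAt hd
        (Continuous.intervalIntegrable (by fun_prop) _ _)]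
      have e1 : -(x * (2 / x)) = -2 := by field_simp
      rw [e1, mul_one]
    have b3 := exp_neg_two
    have b4 : 0 < Real.exp (-x) := Real.exp_pos _
    rw [b2] at b1
    linarith
  have a2 : ∫ t in (0:ℝ)..(2 / x), π * x / 2 * (1 - (π * x / 2 * t) ^ 2 / 6) * (1 - x * t / 2) ^ 2 ≤
      ∫ t in (0:ℝ)..(2 / x), π * x / 2 * sinc (π * x / 2 * t) * (1 - t) ^ x := by
    apply intervalIntegral.integral_mono_on h1x
      (Continuous.intervalIntegrable (by fun_prop) _ _) (hc.intervalIntegrable _ _)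
    intro t ht
    have hxt : x * t ≤ 2 := by
      have := ht.2
      rw [le_div_iff₀ hx0] at this
      linarith
    have hxt0 : 0 ≤ x * t := mul_nonneg hx0.le ht.1
    have ht1 : t ≤ 1 := ht.2.trans h1x1
    have h2 : 0 ≤ sinc (π * x / 2 * t) := by
      apply sinc_nonneg' (mul_nonneg (by positivity) ht.1)
      nlinarith
    have h3 := sinc_ge (u := π * x / 2 * t) (mul_nonneg (by positivity) ht.1)
    have h4 : (1 - x * t / 2) ^ 2 ≤ (1 - t) ^ x := by
      have h5 := one_add_mul_self_le_rpow_one_add (s := -t) (p := x / 2) (by linarith) (by linarith)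
      have e1 : (1 + -t : ℝ) = 1 - t := by ring
      rw [e1] at h5
      have e2 : (1 - t) ^ x = ((1 - t) ^ (x / 2)) ^ 2 := by
        rw [← Real.rpow_natCast, ← Real.rpow_mul (by linarith)]
        congr 1
        push_cast
        ring
      rw [e2]
      apply pow_le_pow_left₀ (by linarith)
      linarith
    calc π * x / 2 * (1 - (π * x / 2 * t) ^ 2 / 6) * (1 - x * t / 2) ^ 2
        ≤ π * x / 2 * sinc (π * x / 2 * t) * (1 - x * t / 2) ^ 2 := by
          apply mul_le_mul_of_nonneg_right _ (sq_nonneg _)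
          exact mul_le_mul_of_nonneg_left h3 (by positivity)
      _ ≤ _ := mul_le_mul_of_nonneg_left h4 (by positivity)
  have a3 : ∫ t in (0:ℝ)..(2 / x), π * x / 2 * (1 - (π * x / 2 * t) ^ 2 / 6) * (1 - x * t / 2) ^ 2 =
      π / 3 - π ^ 3 / 180 := by
    have hd : ∀ t ∈ uIcc (0:ℝ) (2 / x), HasDerivAt (fun t : ℝ =>
        π * x / 2 * (t - x * t ^ 2 / 2 + x ^ 2 * t ^ 3 / 12) -
        (π * x / 2) ^ 3 / 6 * (t ^ 3 / 3 - x * t ^ 4 / 4 + x ^ 2 * t ^ 5 / 20))
        (π * x / 2 * (1 - (π * x / 2 * t) ^ 2 / 6) * (1 - x * t / 2) ^ 2) t := by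
      intro t _
      have d1 := hasDerivAt_id t
      have d2 := hasDerivAt_pow 2 t
      have d3 := hasDerivAt_pow 3 t
      have d4 := hasDerivAt_pow 4 t
      have d5 := hasDerivAt_pow 5 t
      have d6 := (((d1.sub ((d2.const_mul x).div_const 2)).add
        ((d3.const_mul (x ^ 2)).div_const 12)).const_mul (π * x / 2)).sub
        ((((d3.div_const 3).sub ((d4.const_mul x).div_const 4)).add
          ((d5.const_mul (x ^ 2)).div_const 20)).const_mul ((π * x / 2) ^ 3 / 6))
      refine (d6.congr_deriv ?_)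
      push_cast
      ring
    rw [intervalIntegral.integral_eq_sub_of_hasDerivAt hd
      (Continuous.intervalIntegrable (by fun_prop) _ _)]
    field_simp
    ring
  linarith

lemma pi_sq_le : π ^ 2 ≤ 9.8697 := by
  have h1 := Real.pi_lt_d6
  have h2 := Real.pi_pos
  nlinarith

/-- The gain for `x ≥ 1`. -/
lemma JJ_ge {x : ℝ} (hx : 1 ≤ x) : 0.9314 ≤ 4 / π * JJ x := by
  have hpi := Real.pi_pos
  have hpi3 := Real.pi_gt_d6
  have h2 := pi_sq_le
  have key : 0.9314 * π / 4 ≤ JJ x := by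
    rcases le_total x 2 with h | h
    · have h1 := JJ_mid hx h
      have h3 : π ^ 3 = π * π ^ 2 := by ring
      rw [h3] at h1
      nlinarith
    · have h1 := JJ_big h
      have h3 : π ^ 3 = π * π ^ 2 := by ring
      rw [h3] at h1
      nlinarith
  rw [div_mul_eq_mul_div, le_div_iff₀ hpi]
  linarith

/-- **The numerical inequality** for length exponents `θ` and windows `c` with `2cθ = x ≥ 1`. -/
lemma gain_ge {x g : ℝ} (hx : 1 ≤ x) (hg : g < 0.9314 * √x) : ∃ v : ℝ, 0 ≤ v ∧ ∃ m : ℕ, m ≠ 0 ∧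
    ∀ w : ℝ, |w| = v → g * Den 1 0 (w ^ 2) <
      2 / π * (|w| * Pool.Agent.ZGap.Res.Num (π * x / 2) 1 0 (w ^ 2) m) := by
  have hpi := Real.pi_pos
  have hx0 : 0 < x := by linarith
  have hs : 0 < √x := Real.sqrt_pos.mpr hx0
  have hd : 0 < π / 2 * (0.9314 - g / √x) := by
    have : g / √x < 0.9314 := by rw [div_lt_iff₀ hs]; exact hg
    have : 0 < 0.9314 - g / √x := by linarith
    positivity
  obtain ⟨m, hm, hm1⟩ := exists_small (π * x / 2) hd
  refine ⟨√x, hs.le, m, hm, fun w hw => ?_⟩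
  have hw2 : w ^ 2 = x := by rw [← sq_abs, hw, Real.sq_sqrt hx0.le]
  have hden : Den 1 0 (w ^ 2) = 1 := by unfold Den; ring
  rw [hden, hw, hw2, mul_one]
  have h1 := Num_ge (y := π * x / 2) (q := x) (by positivity) hx0.le m
  have h2 := JJ_ge hx
  unfold JJ at h2
  set J := ∫ t in (0:ℝ)..1, π * x / 2 * sinc (π * x / 2 * t) * (1 - t) ^ x with hJ
  set N := Pool.Agent.ZGap.Res.Num (π * x / 2) 1 0 x m with hN
  set e := 2 * ((π * x / 2) ^ (4 * m + 1) / ((4 * m + 1).factorial : ℝ)) with he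
  have h3 : 2 * J - π / 2 * (0.9314 - g / √x) < N := by linarith
  have h4 : 0 < 2 / π * √x := by positivity
  have h5 := mul_lt_mul_of_pos_left h3 h4
  have h6 : 2 / π * √x * (2 * J - π / 2 * (0.9314 - g / √x)) =
      (4 / π * J) * √x - 0.9314 * √x + g := by
    field_simp
    ring
  rw [h6] at h5
  have h7 := mul_le_mul_of_nonneg_right h2 hs.le
  calc g ≤ 4 / π * J * √x - 0.9314 * √x + g := by linarith
    _ < 2 / π * √x * N := h5
    _ = _ := by ring

/-- **The numerical inequality** for `2cθ = x`, two terms of the sine series. -/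
lemma gain_le {x g : ℝ} (hg : g < x - π ^ 2 * x ^ 3 / 144) : ∃ v : ℝ, 0 ≤ v ∧ ∃ m : ℕ, m ≠ 0 ∧
    ∀ w : ℝ, |w| = v → g * Den 1 0 (w ^ 2) <
      2 / π * (|w| * Pool.Agent.ZGap.Res.Num (π * x / 2) 1 0 (w ^ 2) m) := by
  refine ⟨1, zero_le_one, 1, one_ne_zero, fun w hw => ?_⟩
  have hw2 : w ^ 2 = 1 ^ 2 := by rw [← sq_abs, hw]
  have hw1 : |w| = |(1 : ℝ)| := by rw [hw, abs_one]
  have h1 := Pool.Agent.ZShort.num_one (x / 2) 1
  have e1 : π * (x / 2) * 1 = π * x / 2 := by ring
  rw [e1] at h1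
  rw [hw2, hw1, h1, Pool.Agent.ZShort.den_one]
  calc g * 1 < x - π ^ 2 * x ^ 3 / 144 := by rw [mul_one]; exact hg
    _ = _ := by ring

end Pool.Agent.RGE
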