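import Pool.Agent.ZGap.Res.Gap
import Pool.Agent.ZGap.Res.Taylor

/-!
# The numerator with constant coefficients as an integral
-/

namespace Pool.Agent.RGE

open MeasureTheory Real Set Pool.Agent.ZGap.Res

lemma rho_shift {q : ℝ} (hq : 0 ≤ q) (n : ℕ) :
    rho q (n + 1) = ((n : ℝ) + 1) / (q + 1) * rho (q + 1) n := by
  induction n with
  | zero => rw [rho_succ, rho_zero, rho_zero]; push_cast; ring
  | succ n ih =>
    rw [rho_succ, ih, rho_succ]
    have h1 : q + 1 ≠ 0 := by positivity
    have h2 : q + ((n : ℝ) + 1 + 1) ≠ 0 := by positivity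
    have h3 : q + 1 + ((n : ℝ) + 1) ≠ 0 := by positivity
    push_cast
    field_simp
    ring

lemma cont_one_sub {q : ℝ} (hq : 0 ≤ q) : Continuous fun t : ℝ => (1 - t) ^ q :=
  (Real.continuous_rpow_const hq).comp (by fun_prop)

lemma cont_mon (n : ℕ) {q : ℝ} (hq : 0 ≤ q) : Continuous fun t : ℝ => t ^ n * (1 - t) ^ q :=
  (continuous_pow n).mul (cont_one_sub hq)

lemma beta_rho (n : ℕ) : ∀ q : ℝ, 0 ≤ q →
    ∫ t in (0:ℝ)..1, t ^ n * (1 - t) ^ q = rho q (n + 1) / ((n : ℝ) + 1) := by
  have hder : ∀ q : ℝ, 0 ≤ q → ∀ t : ℝ, HasDerivAt (fun t : ℝ => (1 - t) ^ (q + 1))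
      (-((q + 1) * (1 - t) ^ q)) t := by
    intro q hq t
    have h1 : HasDerivAt (fun t : ℝ => 1 - t) (-1) t := by
      simpa using (hasDerivAt_id t).const_sub 1
    have h2 := h1.rpow_const (p := q + 1) (Or.inr (by linarith))
    have e : -1 * (q + 1) * (1 - t) ^ (q + 1 - 1) = -((q + 1) * (1 - t) ^ q) := by
      rw [add_sub_cancel_right]; ring
    rwa [e] at h2
  induction n with
  | zero =>
    intro q hq
    have h1 : ∫ t in (0:ℝ)..1, -((q + 1) * (1 - t) ^ q) = (1 - (1:ℝ)) ^ (q + 1) - (1 - 0) ^ (q + 1) := by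
      apply intervalIntegral.integral_eq_sub_of_hasDerivAt
        (f := fun t : ℝ => (1 - t) ^ (q + 1))
      · intro t _
        exact hder q hq t
      · exact (((cont_one_sub hq).const_mul _).neg).intervalIntegrable _ _
    rw [intervalIntegral.integral_neg, intervalIntegral.integral_const_mul, sub_self,
      Real.zero_rpow (by positivity), sub_zero, Real.one_rpow] at h1
    simp only [pow_zero, one_mul]
    rw [rho_succ, rho_zero]
    have h3 : q + 1 ≠ 0 := by positivity
    push_cast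
    rw [zero_add]
    field_simp
    linarith
  | succ n ih =>
    intro q hq
    have h1 : ∫ t in (0:ℝ)..1, (((n : ℝ) + 1) * (t ^ n * (1 - t) ^ (q + 1)) -
        (q + 1) * (t ^ (n + 1) * (1 - t) ^ q)) =
        (1:ℝ) ^ (n + 1) * (1 - (1:ℝ)) ^ (q + 1) - 0 ^ (n + 1) * (1 - 0) ^ (q + 1) := by
      apply intervalIntegral.integral_eq_sub_of_hasDerivAt
        (f := fun t : ℝ => t ^ (n + 1) * (1 - t) ^ (q + 1))
      · intro t _
        have h2 := (hasDerivAt_pow (n + 1) t).mul (hder q hq t)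
        have e : ((n + 1 : ℕ) : ℝ) * t ^ (n + 1 - 1) * (1 - t) ^ (q + 1) +
            t ^ (n + 1) * -((q + 1) * (1 - t) ^ q) =
            ((n : ℝ) + 1) * (t ^ n * (1 - t) ^ (q + 1)) -
            (q + 1) * (t ^ (n + 1) * (1 - t) ^ q) := by
          rw [Nat.add_sub_cancel]
          push_cast
          ring
        rw [e] at h2
        exact h2
      · apply Continuous.intervalIntegrable
        exact ((cont_mon n (q := q + 1) (by linarith)).const_mul _).sub
          ((cont_mon (n + 1) hq).const_mul _)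
    rw [intervalIntegral.integral_sub
      (((cont_mon n (q := q + 1) (by linarith)).const_mul _).intervalIntegrable _ _)
      (((cont_mon (n + 1) hq).const_mul _).intervalIntegrable _ _),
      intervalIntegral.integral_const_mul, intervalIntegral.integral_const_mul,
      ih (q + 1) (by linarith), sub_self, Real.zero_rpow (by positivity)] at h1
    have h3 : q + 1 ≠ 0 := by positivity
    have h4 : (n : ℝ) + 1 ≠ 0 := by positivity
    have h5 : (n : ℝ) + 1 + 1 ≠ 0 := by positivity
    rw [rho_shift hq (n + 1)]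
    push_cast
    rw [zero_pow (by omega)] at h1
    rw [mul_div_cancel₀ _ h4] at h1
    have h6 : ∫ t in (0:ℝ)..1, t ^ (n + 1) * (1 - t) ^ q = rho (q + 1) (n + 1) / (q + 1) := by
      rw [eq_div_iff h3]
      linarith
    rw [h6]
    field_simp

/-- The numerator with constant coefficients is the integral of the Taylor polynomial. -/
lemma Num_eq_int (y : ℝ) {q : ℝ} (hq : 0 ≤ q) (m : ℕ) : Pool.Agent.ZGap.Res.Num y 1 0 q m =
    ∫ t in (0:ℝ)..1, (∑ k ∈ Finset.range (2 * m), sk y k * t ^ (2 * k)) * (1 - t) ^ q := by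
  have e : ∀ t : ℝ, (∑ k ∈ Finset.range (2 * m), sk y k * t ^ (2 * k)) * (1 - t) ^ q =
      ∑ k ∈ Finset.range (2 * m), sk y k * (t ^ (2 * k) * (1 - t) ^ q) := by
    intro t
    rw [Finset.sum_mul]
    exact Finset.sum_congr rfl fun k _ => by ring
  simp_rw [e]
  rw [intervalIntegral.integral_finsetSum fun k _ =>
    ((cont_mon (2 * k) hq).const_mul _).intervalIntegrable _ _]
  unfold Pool.Agent.ZGap.Res.Num
  refine Finset.sum_congr rfl fun k _ => ?_
  rw [intervalIntegral.integral_const_mul, beta_rho (2 * k) q hq]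
  unfold term
  push_cast
  ring

/-- The Taylor polynomial against the cardinal sine. -/
lemma poly_ge {y t : ℝ} (hy : 0 ≤ y) (ht : 0 < t) (ht1 : t ≤ 1) (m : ℕ) :
    2 * (y * sinc (y * t)) - 2 * (y ^ (4 * m + 1) / (4 * m + 1).factorial) ≤
      ∑ k ∈ Finset.range (2 * m), sk y k * t ^ (2 * k) := by
  have hyt : 0 ≤ y * t := by positivity
  have h1 := (alt_bounds (2 * m)).1 (y * t) hyt
  have h2 : ((-1:ℝ)) ^ (2 * m + 1) = -1 := by
    rw [pow_succ, pow_mul]; norm_num
  rw [h2] at h1
  have h3 : sT (2 * m + 1) (y * t) = sT (2 * m) (y * t) +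
      (y * t) ^ (4 * m + 1) / (4 * m + 1).factorial := by
    unfold sT
    rw [Finset.sum_range_succ]
    have e1 : 2 * (2 * m) + 1 = 4 * m + 1 := by ring
    have e2 : ((-1:ℝ)) ^ (2 * m) = 1 := by rw [pow_mul]; norm_num
    rw [e1, e2, one_mul]
  have h4 : t * ∑ k ∈ Finset.range (2 * m), sk y k * t ^ (2 * k) = 2 * sT (2 * m) (y * t) := by
    unfold sT sk
    rw [Finset.mul_sum, Finset.mul_sum]
    refine Finset.sum_congr rfl fun k _ => ?_
    rw [mul_pow, pow_succ t]
    ring
  have h5 : t * (y * sinc (y * t)) = Real.sin (y * t) := by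
    rcases eq_or_lt_of_le hy with h | h
    · rw [← h]; simp
    · rw [sinc_of_ne_zero (by positivity)]
      field_simp
  have h6 : (y * t) ^ (4 * m + 1) / (4 * m + 1).factorial ≤
      t * (y ^ (4 * m + 1) / (4 * m + 1).factorial) := by
    rw [mul_pow, mul_comm (y ^ _), mul_div_assoc]
    apply mul_le_mul_of_nonneg_right _ (by positivity)
    calc t ^ (4 * m + 1) ≤ t ^ 1 := pow_le_pow_of_le_one ht.le ht1 (by omega)
      _ = t := pow_one t
  by_contra hcon
  push Not at hcon
  have h7 := mul_lt_mul_of_pos_left hcon ht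
  rw [h4] at h7
  nlinarith

lemma Num_ge {y q : ℝ} (hy : 0 ≤ y) (hq : 0 ≤ q) (m : ℕ) :
    2 * (∫ t in (0:ℝ)..1, y * sinc (y * t) * (1 - t) ^ q) -
      2 * (y ^ (4 * m + 1) / (4 * m + 1).factorial) ≤ Pool.Agent.ZGap.Res.Num y 1 0 q m := by
  rw [Num_eq_int y hq m]
  have hs : Continuous fun t : ℝ => sinc (y * t) := continuous_sinc.comp (by fun_prop)
  have hc : Continuous fun t : ℝ => y * sinc (y * t) * (1 - t) ^ q :=
    (hs.const_mul y).mul (cont_one_sub hq)
  have e : 2 * (∫ t in (0:ℝ)..1, y * sinc (y * t) * (1 - t) ^ q) -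
      2 * (y ^ (4 * m + 1) / (4 * m + 1).factorial) =
      ∫ t in (0:ℝ)..1, (2 * (y * sinc (y * t) * (1 - t) ^ q) -
        2 * (y ^ (4 * m + 1) / (4 * m + 1).factorial)) := by
    rw [intervalIntegral.integral_sub ((hc.const_mul 2).intervalIntegrable _ _)
      (continuous_const.intervalIntegrable _ _), intervalIntegral.integral_const_mul,
      intervalIntegral.integral_const]
    simp
  rw [e]
  apply intervalIntegral.integral_mono_on_of_le_Ioo (by norm_num)
  · exact ((hc.const_mul 2).sub continuous_const).intervalIntegrable _ _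
  · apply Continuous.intervalIntegrable
    exact (continuous_finsetSum _ fun k _ => (continuous_pow (2 * k)).const_mul _).mul
      (cont_one_sub hq)
  · intro t ht
    have h1 := poly_ge hy ht.1 ht.2.le m
    have h2 : 0 ≤ (1 - t) ^ q := Real.rpow_nonneg (by linarith [ht.2]) q
    have h3 : (1 - t) ^ q ≤ 1 := Real.rpow_le_one (by linarith [ht.2]) (by linarith [ht.1]) hq
    have h4 : 0 ≤ y ^ (4 * m + 1) / ((4 * m + 1).factorial : ℝ) := by positivity
    have h5 := mul_le_mul_of_nonneg_right h1 h2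
    nlinarith

/-- The remainder tends to zero. -/
lemma exists_small (y : ℝ) {δ : ℝ} (hδ : 0 < δ) :
    ∃ m : ℕ, m ≠ 0 ∧ 2 * (y ^ (4 * m + 1) / ((4 * m + 1).factorial : ℝ)) < δ := by
  have h1 := FloorSemiring.tendsto_pow_div_factorial_atTop y
  have h2 := (h1.const_mul 2).eventually_lt_const (by rw [mul_zero]; exact hδ)
  obtain ⟨n0, hn0⟩ := Filter.eventually_atTop.mp h2
  exact ⟨n0 + 1, by omega, hn0 (4 * (n0 + 1) + 1) (by omega)⟩

end Pool.Agent.RGE
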