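import Pool.Agent.RGE.GapD
import Pool.Agent.RG.FewCrowd
import Pool.Agent.RG.Index
import Pool.Agent.ZGap.Res.BumpK
import Pool.Agent.ZGap.Res.Crowd

/-!
# Sums of `r` consecutive gaps from the numerical inequality with constant coefficients
-/

open scoped ContDiff

namespace Pool.Agent.RGE

open MeasureTheory Real Set Pool.Agent.ZGap.Res Pool.Agent.ZetaGaps

/-- A resonator with the constant amplitude as a resonator with a general amplitude. -/
def toRG (R : ResData) : Pool.Agent.RG.ResData where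
  th := R.th
  ep := R.ep
  r := R.r
  f := R.f
  F := R.F
  ep_pos := R.ep_pos
  ep_th := R.ep_th
  th_lt := R.th_lt
  f_smooth := R.f_smooth
  f_le := fun x => by rw [abs_of_nonneg (R.f_nonneg x)]; exact R.f_le x
  f_low := R.f_low
  f_high := R.f_high
  F_smooth := R.F_smooth
  F_supp := R.F_supp
  F_nonneg := R.F_nonneg
  F_one := R.F_one

lemma Sig_toRG (R : ResData) (T : ℝ) : Pool.Agent.RG.Sig (toRG R) T = Sig R T := rfl

lemma CC_toRG (R : ResData) (T : ℝ) (n : ℕ) : Pool.Agent.RG.CC (toRG R) T n = CC R T n := rfl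

/-- **Windows with at most `r - 1` zeros**, from the numerical inequality. -/
theorem few_pos_of_num (hRH : RiemannHypothesis) {v θ c a' b' α : ℝ} {r m : ℕ} (hr : 1 ≤ r)
    (hm : m ≠ 0) (hθ : 0 < θ) (hα : 2 * θ < α) (hα1 : α < 1) (hc : (r : ℝ) ≤ c) (ha : 0 ≤ a')
    (hb : 0 ≤ b') (hab : a' + b' ≤ 1) (h0 : 0 < a' + b') (hv : 0 ≤ v)
    (hgap : (c - r) * Den a' b' (v ^ 2) <
      2 / Real.pi * (|v| * Num (Real.pi * c * θ) a' b' (v ^ 2) m)) :
    ∃ c0 T0 : ℝ, 0 < c0 ∧ ∀ T : ℝ, T0 ≤ T → ∀ y H : ℝ, T ≤ y → y + H ≤ 2 * T → T ^ α ≤ H →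
      c0 * H ≤ volume.real {t : ℝ | t ∈ Icc y (y + H) ∧
        zeroCount (t + π * c / Real.log T) < zeroCount (t - π * c / Real.log T) + r} := by
  have hpi := Real.pi_pos
  have hr1 : (1 : ℝ) ≤ r := by exact_mod_cast hr
  have hc0 : 0 < c := by linarith
  have hθ' : θ < 1 / 2 := by linarith
  obtain ⟨κ, hκ, e, he, main⟩ := arith_sum_D (D := c - r) (by linarith) hm hθ hθ'.le hc0.le ha hb
    hab h0 hgap
  set ep := min e (θ / 4) with hep
  have hep0 : 0 < ep := lt_min he (by linarith)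
  have hep1 : ep ≤ θ / 4 := min_le_right _ _
  set δ := min e (1 / 2) with hδ
  have hδ0 : 0 < δ := lt_min he (by norm_num)
  obtain ⟨R, hRth, hRep, hRr, hLP⟩ := exists_linProf (th := θ) (ep := ep) (δ := δ) v hep0
    (by linarith) hθ' ha hb hab hδ0 (min_le_right _ _)
  set e' := min e (π * κ) with he'
  have he'0 : 0 < e' := lt_min he (by positivity)
  obtain ⟨ψ, hψ, hψ00, hψle, hψ1, hψ0, ⟨K, M, hK, hlip, hbd⟩, hclose⟩ := exists_majorant hc0 he'0
  obtain ⟨T1, hT1, harith⟩ := main R hRr hRth (by rw [hRep]; exact min_le_left _ _) δ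
    (min_le_left _ _) hLP (chat ψ) K M e' 1 hK hlip hbd he'0.le (min_le_left _ _)
    (fun x _ _ => hclose x) (by norm_num) (by rw [abs_of_nonneg hv]; ring)
  have hF : ∀ x, 0 ≤ x → R.F x ≤ 1 := fun x hx => hLP.F_le_one hx
  have hF0 : 0 < R.F 0 := by
    rw [hLP.eq 0 le_rfl (by linarith [hLP.hδ'])]
    linarith
  have hψc : chat ψ 0 / (2 * π) ≤ c + κ / 2 := by
    have h1 := (abs_le.mp (hclose 0)).2
    have h2 : k0 c 0 = 2 * (π * c) := by unfold k0; simp
    have h3 : e' ≤ π * κ := min_le_right _ _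
    rw [div_le_iff₀ (by positivity)]
    rw [h2] at h1
    linarith only [h1, h3]
  exact Pool.Agent.RG.few_pos_of_arith hRH (toRG R) hF hF0 hc0 hr
    (by show 2 * R.th < α; rw [hRth]; exact hα) hα1 hκ hψ hψ00 hψle hψ1 hψ0 hψc
    (T1 := T1) (fun T hT => by
      have h1 := harith T hT ⌊T⌋₊ le_rfl
      rw [one_mul] at h1
      exact h1)

/-- **Windows with at least `r + 1` zeros**, from the numerical inequality. -/
theorem crowd_pos_of_num (hRH : RiemannHypothesis) {v θ c a' b' α : ℝ} {r m : ℕ} (hr : 1 ≤ r)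
    (hm : m ≠ 0) (hθ : 0 < θ) (hα : 2 * θ < α) (hα1 : α < 1) (hc0 : 0 < c) (hc : c ≤ r)
    (ha : 0 ≤ a') (hb : 0 ≤ b') (hab : a' + b' ≤ 1) (h0 : 0 < a' + b') (hv : v ≤ 0)
    (hgap : (r - c) * Den a' b' (v ^ 2) <
      2 / Real.pi * (|v| * Num (Real.pi * c * θ) a' b' (v ^ 2) m)) :
    ∃ c0 T0 : ℝ, 0 < c0 ∧ ∀ T : ℝ, T0 ≤ T → ∀ y H : ℝ, T ≤ y → y + H ≤ 2 * T → T ^ α ≤ H →
      c0 * H ≤ volume.real {t : ℝ | t ∈ Icc y (y + H) ∧
        zeroCount (t - π * c / Real.log T) + (r + 1) ≤ zeroCount (t + π * c / Real.log T)} := by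
  have hpi := Real.pi_pos
  have hθ' : θ < 1 / 2 := by linarith
  obtain ⟨κ, hκ, e, he, main⟩ := arith_sum_D (D := r - c) (by linarith) hm hθ hθ'.le hc0.le ha hb
    hab h0 hgap
  set ep := min e (θ / 4) with hep
  have hep0 : 0 < ep := lt_min he (by linarith)
  have hep1 : ep ≤ θ / 4 := min_le_right _ _
  set δ := min e (1 / 2) with hδ
  have hδ0 : 0 < δ := lt_min he (by norm_num)
  obtain ⟨R, hRth, hRep, hRr, hLP⟩ := exists_linProf (th := θ) (ep := ep) (δ := δ) v hep0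
    (by linarith) hθ' ha hb hab hδ0 (min_le_right _ _)
  set e' := min e (π * κ) with he'
  have he'0 : 0 < e' := lt_min he (by positivity)
  obtain ⟨ψ, hψ, hψ00, hψle, hψ0, ⟨K, M, hK, hlip, hbd⟩, hclose⟩ := exists_minorant hc0 he'0
  obtain ⟨T1, hT1, harith⟩ := main R hRr hRth (by rw [hRep]; exact min_le_left _ _) δ
    (min_le_left _ _) hLP (chat ψ) K M e' (-1) hK hlip hbd he'0.le (min_le_left _ _)
    (fun x _ _ => hclose x) (by norm_num) (by rw [abs_of_nonpos hv]; ring)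
  have hF : ∀ x, 0 ≤ x → R.F x ≤ 1 := fun x hx => hLP.F_le_one hx
  have hF0 : 0 < R.F 0 := by
    rw [hLP.eq 0 le_rfl (by linarith [hLP.hδ'])]
    linarith
  have hψc : c - κ / 2 ≤ chat ψ 0 / (2 * π) := by
    have h1 := (abs_le.mp (hclose 0)).1
    have h2 : k0 c 0 = 2 * (π * c) := by unfold k0; simp
    have h3 : e' ≤ π * κ := min_le_right _ _
    rw [le_div_iff₀ (by positivity)]
    rw [h2] at h1
    linarith only [h1, h3]
  exact Pool.Agent.RG.crowd_pos_of_arith hRH (toRG R) hF hF0 hc0 hr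
    (by show 2 * R.th < α; rw [hRth]; exact hα) hα1 hκ hψ hψ00 hψle hψ0 hψc
    (T1 := T1) (fun T hT => by
      have h1 := harith T hT ⌊T⌋₊ le_rfl
      rw [neg_one_mul] at h1
      exact h1)

end Pool.Agent.RGE
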